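import Pool.Agent.W2helper8.ZQ.Stm

/-!
Project ZQ (helper8), piece VA: the smooth cut-off
-/

set_option autoImplicit false

namespace Pool.Agent.W2helper49.ZQ

open Finset Filter Topology MeasureTheory Complex
open Pool.Agent.W2helper8.ZQ

noncomputable section

lemma quad_eq (u c τ : ℝ) : (u : ℂ) * (c + τ * I) + (c + τ * I) ^ 2 =
    (-1) * (τ : ℂ) ^ 2 + (I * (u + 2 * c)) * τ + (u * c + c ^ 2) := by
  ring_nf
  rw [I_sq]
  ring

lemma int_tau (u c : ℝ) : Integrable (fun τ : ℝ => cexp ((u : ℂ) * (c + τ * I) + (c + τ * I) ^ 2)) := by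
  simp only [quad_eq]
  exact integrable_cexp_quadratic (b := 1) (by simp) _ _

lemma val_tau (u c : ℝ) : ∫ τ : ℝ, cexp ((u : ℂ) * (c + τ * I) + (c + τ * I) ^ 2) =
    ((Real.sqrt Real.pi * Real.exp (-(u ^ 2 / 4)) : ℝ) : ℂ) := by
  simp only [quad_eq]
  rw [integral_cexp_quadratic (b := -1) (by simp)]
  have h1 : ((Real.pi : ℂ) / - -1) ^ (1 / 2 : ℂ) = ((Real.sqrt Real.pi : ℝ) : ℂ) := by
    rw [neg_neg, div_one, Real.sqrt_eq_rpow, Complex.ofReal_cpow Real.pi_pos.le]
    norm_num
  rw [h1]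
  push_cast
  congr 2
  have : (I * ((u : ℂ) + 2 * c)) ^ 2 = -((u : ℂ) + 2 * c) ^ 2 := by
    rw [mul_pow, I_sq]; ring
  rw [this]
  ring

lemma z_re (c τ : ℝ) : ((c : ℂ) + τ * I).re = c := by simp

lemma z_ne {c : ℝ} (hc : 0 < c) (τ : ℝ) : ((c : ℂ) + τ * I) ≠ 0 := by
  intro h
  have := congrArg Complex.re h
  rw [z_re] at this
  simp at this
  linarith

lemma int_main {c : ℝ} (hc : 0 < c) (y : ℝ) :
    Integrable (fun τ : ℝ => cexp (y * (c + τ * I) + (c + τ * I) ^ 2) / (c + τ * I)) := by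
  refine Integrable.mono' ((int_tau y c).norm.mul_const (1 / c)) ?_ ?_
  · refine Continuous.aestronglyMeasurable ?_
    refine Continuous.div ?_ ?_ (fun τ => z_ne hc τ)
    · fun_prop
    · fun_prop
  · refine Eventually.of_forall fun τ => ?_
    rw [norm_div, div_eq_mul_one_div]
    refine mul_le_mul_of_nonneg_left ?_ (norm_nonneg _)
    refine one_div_le_one_div_of_le hc ?_
    have := Complex.abs_re_le_norm ((c : ℂ) + τ * I)
    rw [z_re, abs_of_pos hc] at this
    exact this

lemma norm_main (u c τ : ℝ) : ‖cexp ((u : ℂ) * (c + τ * I) + (c + τ * I) ^ 2)‖ =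
    Real.exp (c * u) * Real.exp (c ^ 2 - τ ^ 2) := by
  rw [Complex.norm_exp, ← Real.exp_add]
  congr 1
  simp [sq]
  ring

lemma gauss : ∫ u : ℝ, Real.exp (-(u ^ 2 / 4)) = 2 * Real.sqrt Real.pi := by
  have h := integral_gaussian (1 / 4)
  have h1 : (fun x : ℝ => Real.exp (-(1 / 4) * x ^ 2)) = fun u : ℝ => Real.exp (-(u ^ 2 / 4)) := by
    funext x; congr 1; ring
  rw [h1] at h
  rw [h, show Real.pi / (1 / 4) = 2 ^ 2 * Real.pi by ring, Real.sqrt_mul (by norm_num),
    Real.sqrt_sq (by norm_num)]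

lemma gauss_int : Integrable fun u : ℝ => Real.exp (-(u ^ 2 / 4)) := by
  have h := integrable_exp_neg_mul_sq (b := 1 / 4) (by norm_num)
  refine h.congr (Eventually.of_forall fun x => ?_)
  show Real.exp (-(1 / 4) * x ^ 2) = Real.exp (-(x ^ 2 / 4))
  congr 1; ring

lemma main_eq {c : ℝ} (hc : 0 < c) (y : ℝ) :
    (1 / (2 * Real.pi : ℂ)) * ∫ τ : ℝ, cexp (y * (c + τ * I) + (c + τ * I) ^ 2) / (c + τ * I) =
      (vv y : ℂ) := by
  have hF : Integrable (Function.uncurry fun u τ : ℝ =>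
      cexp ((u : ℂ) * (c + τ * I) + (c + τ * I) ^ 2))
      ((volume.restrict (Set.Iic y)).prod volume) := by
    have h1 : Integrable (fun u : ℝ => Real.exp (c * u)) (volume.restrict (Set.Iic y)) :=
      integrableOn_exp_mul_Iic hc y
    have h2 : Integrable (fun τ : ℝ => Real.exp (c ^ 2 - τ ^ 2)) := by
      have h := (integrable_exp_neg_mul_sq (b := 1) (by norm_num)).const_mul (Real.exp (c ^ 2))
      refine h.congr (Eventually.of_forall fun x => ?_)
      show Real.exp (c ^ 2) * Real.exp (-1 * x ^ 2) = Real.exp (c ^ 2 - x ^ 2)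
      rw [← Real.exp_add]
      congr 1; ring
    refine Integrable.mono' (h1.mul_prod h2) ?_ ?_
    · refine Continuous.aestronglyMeasurable ?_
      unfold Function.uncurry
      fun_prop
    · refine Eventually.of_forall fun p => ?_
      exact (norm_main p.1 c p.2).le
  have hswap := integral_integral_swap hF
  have e1 : (∫ τ : ℝ, cexp (y * (c + τ * I) + (c + τ * I) ^ 2) / (c + τ * I)) =
      ∫ τ : ℝ, ∫ u : ℝ in Set.Iic y, cexp ((u : ℂ) * (c + τ * I) + (c + τ * I) ^ 2) := by
    congr 1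
    funext τ
    have h3 : (fun u : ℝ => cexp ((u : ℂ) * (c + τ * I) + (c + τ * I) ^ 2)) =
        fun u : ℝ => cexp (((c : ℂ) + τ * I) * u) * cexp ((c + τ * I) ^ 2) := by
      funext u
      rw [← Complex.exp_add, mul_comm (u : ℂ)]
    rw [h3, integral_mul_const, integral_exp_mul_complex_Iic (by rw [z_re]; exact hc),
      Complex.exp_add, mul_comm (y : ℂ)]
    ring
  rw [e1, ← hswap]
  simp only [val_tau]
  rw [integral_complex_ofReal, integral_const_mul]
  unfold vv
  have hs : Real.sqrt Real.pi ≠ 0 := (Real.sqrt_pos.2 Real.pi_pos).ne'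
  have hss : Real.sqrt Real.pi * Real.sqrt Real.pi = Real.pi := Real.mul_self_sqrt Real.pi_pos.le
  have e2 : 1 / (2 * Real.sqrt Real.pi) = 1 / (2 * Real.pi) * Real.sqrt Real.pi := by
    rw [div_mul_eq_mul_div, one_mul, div_eq_div_iff (by positivity) (by positivity)]
    linear_combination (-2) * hss
  rw [e2]
  push_cast
  ring

lemma vv_tail (y : ℝ) (S : Set ℝ) (hS : MeasurableSet S)
    (h : ∀ u ∈ S, 0 ≤ (u - y) * y) :
    ∫ u in S, Real.exp (-(u ^ 2 / 4)) ≤ Real.exp (-(y ^ 2 / 4)) * (2 * Real.sqrt Real.pi) := by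
  rw [← integral_indicator hS, ← integral_add_right_eq_self _ y, ← gauss, ← integral_const_mul]
  refine integral_mono ?_ (gauss_int.const_mul _) ?_
  · exact (gauss_int.indicator hS).comp_add_right y
  · intro u
    show S.indicator (fun u : ℝ => Real.exp (-(u ^ 2 / 4))) (u + y) ≤
      Real.exp (-(y ^ 2 / 4)) * Real.exp (-(u ^ 2 / 4))
    by_cases hu : u + y ∈ S
    · rw [Set.indicator_of_mem hu, ← Real.exp_add]
      apply Real.exp_le_exp.2
      have := h _ hu
      nlinarith
    · rw [Set.indicator_of_notMem hu]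
      positivity

/-- VA -/
theorem p_va : S_VA := by
  have hs : 0 < Real.sqrt Real.pi := Real.sqrt_pos.2 Real.pi_pos
  have hone : ∀ x : ℝ, 1 / (2 * Real.sqrt Real.pi) * (x * (2 * Real.sqrt Real.pi)) = x := by
    intro x
    field_simp
  refine ⟨fun c y hc => ⟨int_main hc y, main_eq hc y⟩, ?_, ?_, ?_⟩
  · intro y
    unfold vv
    constructor
    · have : 0 ≤ ∫ u in Set.Iic y, Real.exp (-(u ^ 2 / 4)) :=
        integral_nonneg fun u => (Real.exp_pos _).le
      positivity
    · have h1 : ∫ u in Set.Iic y, Real.exp (-(u ^ 2 / 4)) ≤ 1 * (2 * Real.sqrt Real.pi) := by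
        rw [one_mul, ← gauss]
        exact setIntegral_le_integral gauss_int (Eventually.of_forall fun u => (Real.exp_pos _).le)
      calc _ ≤ 1 / (2 * Real.sqrt Real.pi) * (1 * (2 * Real.sqrt Real.pi)) :=
            mul_le_mul_of_nonneg_left h1 (by positivity)
        _ = 1 := hone 1
  · intro y hy
    unfold vv
    have h1 := vv_tail y (Set.Iic y) measurableSet_Iic (by
      intro u hu
      have : u ≤ y := hu
      nlinarith)
    calc _ ≤ 1 / (2 * Real.sqrt Real.pi) * (Real.exp (-(y ^ 2 / 4)) * (2 * Real.sqrt Real.pi)) :=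
          mul_le_mul_of_nonneg_left h1 (by positivity)
      _ = _ := hone _
  · intro y hy
    have h1 := vv_tail y (Set.Ioi y) measurableSet_Ioi (by
      intro u hu
      have : y < u := hu
      nlinarith)
    have h2 : (∫ u in Set.Iic y, Real.exp (-(u ^ 2 / 4))) + ∫ u in Set.Ioi y, Real.exp (-(u ^ 2 / 4)) =
        2 * Real.sqrt Real.pi := by
      rw [← gauss]
      have := integral_add_compl (μ := volume) (f := fun u : ℝ => Real.exp (-(u ^ 2 / 4)))
        (s := Set.Iic y) measurableSet_Iic gauss_int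
      rw [Set.compl_Iic] at this
      exact this
    have h3 : 1 - vv y = 1 / (2 * Real.sqrt Real.pi) * ∫ u in Set.Ioi y, Real.exp (-(u ^ 2 / 4)) := by
      have h4 : 1 / (2 * Real.sqrt Real.pi) * ((∫ u in Set.Iic y, Real.exp (-(u ^ 2 / 4))) +
          ∫ u in Set.Ioi y, Real.exp (-(u ^ 2 / 4))) = 1 := by
        rw [h2]
        field_simp
      rw [mul_add] at h4
      unfold vv
      linarith
    rw [h3]
    calc _ ≤ 1 / (2 * Real.sqrt Real.pi) * (Real.exp (-(y ^ 2 / 4)) * (2 * Real.sqrt Real.pi)) :=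
          mul_le_mul_of_nonneg_left h1 (by positivity)
      _ = _ := hone _

end

end Pool.Agent.W2helper49.ZQ
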