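import Pool.Agent.W2helper8.ZQ.Stm

/-!
Project ZQ (helper8), piece KD: Diophantine approximation with the minimal denominator
-/

set_option autoImplicit false

namespace Pool.Agent.W2helper49.ZQ

open Pool.Agent.W2helper8.ZQ

/-- KD -/
theorem p_kd : S_KD := by
  intro x Q hx hQ
  have hQ0 : 0 < Q := by linarith
  have hex : ∃ k : ℕ, 0 < k ∧ dz (k * x) ≤ 1 / Q := by
    have hn : 0 < ⌊Q⌋₊ := Nat.floor_pos.2 hQ
    obtain ⟨k, hk0, hk1, hk2⟩ := Real.exists_nat_abs_mul_sub_round_le x hn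
    refine ⟨k, hk0, hk2.trans ?_⟩
    exact one_div_le_one_div_of_le hQ0 (Nat.lt_floor_add_one Q).le
  have hex' : ∃ k : ℕ, 0 < k ∧ dz (k * x) ≤ 1 / Q ∧ (k : ℝ) ≤ Q := by
    have hn : 0 < ⌊Q⌋₊ := Nat.floor_pos.2 hQ
    obtain ⟨k, hk0, hk1, hk2⟩ := Real.exists_nat_abs_mul_sub_round_le x hn
    refine ⟨k, hk0, hk2.trans ?_, ?_⟩
    · exact one_div_le_one_div_of_le hQ0 (Nat.lt_floor_add_one Q).le
    · exact (Nat.cast_le.2 hk1).trans (Nat.floor_le hQ0.le)
  classical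
  obtain ⟨k, ⟨hk0, hk1⟩, hmin⟩ : ∃ k : ℕ, (0 < k ∧ dz (k * x) ≤ 1 / Q) ∧
      ∀ r : ℕ, 0 < r → dz (r * x) ≤ 1 / Q → k ≤ r :=
    ⟨Nat.find hex, Nat.find_spec hex, fun r hr0 hr1 => Nat.find_min' hex ⟨hr0, hr1⟩⟩
  have hkQ : (k : ℝ) ≤ Q := by
    obtain ⟨k', h1, h2, h3⟩ := hex'
    exact (Nat.cast_le.2 (hmin k' h1 h2)).trans h3
  have hkp : (0 : ℝ) < k := by exact_mod_cast hk0
  have hk1' : (1 : ℝ) ≤ k := by exact_mod_cast hk0
  have hkx : 1 ≤ (k : ℝ) * x := by nlinarith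
  have hround : 1 ≤ round ((k : ℝ) * x) := by
    rw [round_eq, Int.le_floor]
    push_cast
    linarith
  obtain ⟨h, hh⟩ : ∃ h : ℕ, (h : ℤ) = round ((k : ℝ) * x) :=
    ⟨(round ((k : ℝ) * x)).toNat, Int.toNat_of_nonneg (by linarith)⟩
  have hh1 : 1 ≤ h := by
    have : (1 : ℤ) ≤ h := by rw [hh]; exact hround
    exact_mod_cast this
  have hhr : ((h : ℕ) : ℝ) = ((round ((k : ℝ) * x) : ℤ) : ℝ) := by
    rw [← hh]; simp
  have habs : |(k : ℝ) * x - h| ≤ 1 / Q := by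
    rw [hhr]; exact hk1
  have hcop : Nat.Coprime h k := by
    by_contra hcon
    have hd0 : 0 < Nat.gcd h k := Nat.gcd_pos_of_pos_right h hk0
    have hd2 : 2 ≤ Nat.gcd h k := by
      have : Nat.gcd h k ≠ 1 := hcon
      omega
    obtain ⟨h', e1⟩ := Nat.gcd_dvd_left h k
    obtain ⟨k', e2⟩ := Nat.gcd_dvd_right h k
    set d := Nat.gcd h k with hd
    have hk'0 : 0 < k' := by
      rcases Nat.eq_zero_or_pos k' with h0 | h0
      · rw [h0, mul_zero] at e2; omega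
      · exact h0
    have hlt : k' < k := by
      rw [e2]; nlinarith
    have hle : dz (k' * x) ≤ 1 / Q := by
      have h1 : dz (k' * x) ≤ |(k' : ℝ) * x - ((h' : ℤ) : ℝ)| := round_le _ _
      refine h1.trans ?_
      have h2 : (d : ℝ) * |(k' : ℝ) * x - ((h' : ℤ) : ℝ)| ≤ 1 / Q := by
        have hdp : (0 : ℝ) < d := by exact_mod_cast hd0
        have h4 : ∀ y : ℝ, (d : ℝ) * |y| = |(d : ℝ) * y| := fun y => by
          rw [abs_mul, abs_of_pos hdp]
        rw [h4]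
        have h3 : (d : ℝ) * ((k' : ℝ) * x - ((h' : ℤ) : ℝ)) = (k : ℝ) * x - h := by
          have c1 : (h : ℝ) = d * h' := by exact_mod_cast e1
          have c2 : (k : ℝ) = d * k' := by exact_mod_cast e2
          rw [c1, c2]
          push_cast
          ring
        rw [h3]
        exact habs
      have hd2' : (2 : ℝ) ≤ d := by exact_mod_cast hd2
      nlinarith [abs_nonneg ((k' : ℝ) * x - ((h' : ℤ) : ℝ))]
    have := hmin k' hk'0 hle
    omega
  refine ⟨h, k, hh1, hk0, hkQ, habs, hcop, ?_⟩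
  intro r hr1 hrk
  have hrk' : (r : ℝ) ≤ k := by exact_mod_cast hrk.le
  have hr0 : (0 : ℝ) ≤ r := Nat.cast_nonneg r
  by_cases hcase : 2 * (k : ℝ) ≤ Q
  · set j := round (x * r) with hj
    have hne : (r : ℤ) * h - j * k ≠ 0 := by
      intro h0
      have h1 : (k : ℤ) ∣ (r : ℤ) * h := ⟨j, by linarith⟩
      have h2 : k ∣ r * h := by exact_mod_cast h1
      have h3 : k ∣ r := (Nat.Coprime.dvd_of_dvd_mul_right hcop.symm h2)
      have := Nat.le_of_dvd hr1 h3
      omega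
    have h1 : (1 : ℝ) ≤ |((r : ℝ) * h - j * k)| := by
      have := Int.one_le_abs hne
      exact_mod_cast this
    have h2 : (r : ℝ) * |(k : ℝ) * x - h| ≤ 1 / 2 := by
      calc (r : ℝ) * |(k : ℝ) * x - h| ≤ k * (1 / Q) :=
            mul_le_mul hrk' habs (abs_nonneg _) hkp.le
        _ = k / Q := by ring
        _ ≤ 1 / 2 := by rw [div_le_div_iff₀ hQ0 (by norm_num)]; linarith
    have h3 : (k : ℝ) * |x * r - j| = |(r : ℝ) * (k * x - h) + (r * h - j * k)| := by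
      have h5 : (k : ℝ) * |x * r - j| = |(k : ℝ) * (x * r - j)| := by
        rw [abs_mul, abs_of_pos hkp]
      rw [h5]
      congr 1
      ring
    have h4 : |(r : ℝ) * h - j * k| ≤
        |(r : ℝ) * (k * x - h) + (r * h - j * k)| + |(r : ℝ) * (k * x - h)| := by
      have := abs_sub (((r : ℝ) * (k * x - h)) + (r * h - j * k)) ((r : ℝ) * (k * x - h))
      rwa [add_sub_cancel_left] at this
    rw [← h3, abs_mul, abs_of_nonneg hr0] at h4
    show 1 / (2 * (k : ℝ)) ≤ |x * r - j|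
    rw [div_le_iff₀ (by positivity)]
    nlinarith
  · push Not at hcase
    have h1 : ¬ dz (r * x) ≤ 1 / Q := fun h0 => by
      have := hmin r hr1 h0
      omega
    push Not at h1
    rw [mul_comm x]
    refine le_trans ?_ h1.le
    exact one_div_le_one_div_of_le hQ0 hcase.le

end Pool.Agent.W2helper49.ZQ
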